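import Pool.Agent.GLW18.Normalizer

set_option autoImplicit false

/-!
# Infinite-subset versions of a group law: centralizers of the tuples at which the law fails

Let `w` be a group word in `n` variables and `G` a group such that any `n` infinite subsets of `G`
contain representatives which generate a group satisfying the law `w = 1`; nothing more is assumed.
Then the elements of `G` which commute with all elements of an infinite set satisfy the law; so the
centralizer of every tuple at which the law fails is finite, and every finite subgroup in which the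
law fails has a finite normalizer.  If `A` and `B` are infinite subgroups which commute, then the
products of elements of `A` and `B` satisfy the law.
-/

namespace Pool.Agent.Results.MP_93ce61_al.FiniteCentralizers

open Pool.Agent.GLW18

theorem result {n : ℕ} (w : FreeGroup (Fin n)) (G : Type*) [Group G]
    (hG : ∀ S : Fin n → Set G, (∀ i, (S i).Infinite) →
      ∃ s : Fin n → G, (∀ i, s i ∈ S i) ∧
        ∀ h : Fin n → ↥(Subgroup.closure (Set.range s)), FreeGroup.lift h w = 1) :
    (∀ C : Set G, C.Infinite → ∀ g : Fin n → G, (∀ c ∈ C, ∀ i, c * g i = g i * c) →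
      FreeGroup.lift g w = 1) ∧
    (∀ g : Fin n → G, FreeGroup.lift g w ≠ 1 → {c : G | ∀ i, c * g i = g i * c}.Finite) ∧
    (∀ H : Subgroup G, (H : Set G).Finite → ∀ h : Fin n → G, (∀ i, h i ∈ H) →
      FreeGroup.lift h w ≠ 1 → {c : G | ∀ x, x ∈ H ↔ c * x * c⁻¹ ∈ H}.Finite) ∧
    ∀ A B : Subgroup G, (A : Set G).Infinite → (B : Set G).Infinite →
      (∀ a ∈ A, ∀ b ∈ B, a * b = b * a) →
      ∀ a b : Fin n → G, (∀ i, a i ∈ A) → (∀ i, b i ∈ B) →
        FreeGroup.lift (fun i => a i * b i) w = 1 := by
  refine ⟨fun C hC g hg => centralizer w hG C hC g hg, fun g hg => ?_,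
    fun H hH h hh hne => normalizer w hG H hH h hh hne,
    fun A B hA hB hAB a b ha hb => commuting w hG A B hA hB hAB a b ha hb⟩
  by_contra hinf
  exact hg (centralizer w hG _ hinf g (fun c hc i => hc i))

end Pool.Agent.Results.MP_93ce61_al.FiniteCentralizers
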