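import Pool.Agent.FCW.Residual

/-!
Infinite-subset versions of a group law: tuples which normalise an infinite subgroup.
-/

namespace Pool.Agent.Results.MP_93ce61_al.NormalisedSubgroups

/-- Let any `n` infinite subsets of `G` contain representatives satisfying `w = 1`.  Then the value of
`w` at a tuple which normalises an infinite subgroup `N` lies in each subgroup of finite index of `N`,
and it is `1` if `N` is soluble, an FC-group or residually finite; `w = 1` is a law of `G` if the
FC-centre of `G` is infinite, or if the normal closures of infinitely many elements commute pairwise. -/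
theorem result {n : ℕ} (w : FreeGroup (Fin n)) (G : Type*) [Group G]
    (hG : ∀ S : Fin n → Set G, (∀ i, (S i).Infinite) →
      ∃ s : Fin n → G, (∀ i, s i ∈ S i) ∧ FreeGroup.lift s w = 1) :
    (∀ (g : Fin n → G) (N : Subgroup G), (∀ i, g i ∈ Subgroup.normalizer (N : Set G)) →
      (N : Set G).Infinite →
      (∀ U : Subgroup G, U.relIndex N ≠ 0 → FreeGroup.lift g w ∈ U) ∧
      ((Group.IsSolvable N ∨ (∀ x ∈ N, {c | ∃ y ∈ N, c = y * x * y⁻¹}.Finite) ∨
        (∀ x ∈ N, x ≠ 1 → ∃ U : Subgroup G, U.relIndex N ≠ 0 ∧ x ∉ U)) →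
      FreeGroup.lift g w = 1)) ∧
    ({x : G | (conjugatesOf x).Finite}.Infinite → ∀ g : Fin n → G, FreeGroup.lift g w = 1) ∧
    (∀ f : ℕ → G, Function.Injective f → (∀ j k, j ≠ k →
        ∀ x ∈ Subgroup.normalClosure {f j}, ∀ y ∈ Subgroup.normalClosure {f k}, x * y = y * x) →
      ∀ g : Fin n → G, FreeGroup.lift g w = 1) := by
  refine ⟨fun g N hgN hN => ?_, fun hF g => ?_, fun f hf hc g => ?_⟩
  · have key : ∀ U : Subgroup G, U.relIndex N ≠ 0 → FreeGroup.lift g w ∈ U := fun U hU =>
      Pool.Agent.FCW.mem_of_relIndex hG g N hgN hN U hU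
    refine ⟨key, fun h => ?_⟩
    rcases h with h | h | h
    · exact Pool.Agent.FCW.law_of_soluble w G hG g N hgN hN h
    · exact Pool.Agent.FCW.law_of_fc w G hG g N hgN hN h
    · by_contra hne
      have hN1 : FreeGroup.lift g w ∈ N := key N (by rw [Subgroup.relIndex_self]; exact one_ne_zero)
      obtain ⟨U, hU, hx⟩ := h _ hN1 hne
      exact hx (key U hU)
  · exact Pool.Agent.FCW.law_of_infinite_fc w G hG hF g
  · exact Pool.Agent.FCW.law_of_commuting w G hG f hf hc g

end Pool.Agent.Results.MP_93ce61_al.NormalisedSubgroups
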