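import Pool.Agent.FCW.Iff

/-!
Infinite-subset versions of a group law: reduction of counterexamples to countable monolithic ones, and
to simple ones for soluble varieties.
-/

universe u

namespace Pool.Agent.Results.MP_93ce61_al.ReductionToSimple

open Pool.Agent.FCW

/-- Let `G` be an infinite group in `V(w*)` or `V(w#)` which does not satisfy `w = 1`.  Modulo a finite
normal subgroup `G` is monolithic with monolith the verbal subgroup, which is of one of two kinds; a
section of `G` is a countable monolithic counterexample of one of four kinds, in `V(w#)` if `G` is.  If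
`w` is tame, it is simple, and a counterexample exists if and only if there is an infinite countable
simple group in `V(w*)`, in `V(w#)` respectively.  All `w` with `V(w)` soluble are tame. -/
theorem result {n : ℕ} (w : FreeGroup (Fin n)) :
    (∀ (G : Type u) [Group G] [Infinite G], (Star w G ∨ Sharp w G) → ¬ Law w G →
      (∃ (N : Subgroup G) (_ : N.Normal), Finite N ∧ ¬ Law w (G ⧸ N) ∧ Mono w (G ⧸ N) ∧
        (FinMono w (G ⧸ N) ∨
          (InfMono w (G ⧸ N) ∧ (Law w (verbal w (G ⧸ N)) ∨ IsSimpleGroup (verbal w (G ⧸ N)))))) ∧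
      (∃ (H : Type u) (_ : Group H), Sec G H ∧ Countable H ∧ Infinite H ∧ Star w H ∧
        (Sharp w G → Sharp w H) ∧ ¬ Law w H ∧ Mono w H ∧ Kind4 w H ∧
        (Tame.{u} w → IsSimpleGroup H))) ∧
    (Tame.{u} w →
      ((∃ (G : Type u) (_ : Group G), Infinite G ∧ Sharp w G ∧ ¬ Law w G) ↔
        ∃ (H : Type u) (_ : Group H), Infinite H ∧ Countable H ∧ IsSimpleGroup H ∧ Sharp w H) ∧
      ((∃ (G : Type u) (_ : Group G), Infinite G ∧ Star w G ∧ ¬ Law w G) ↔
        ∃ (H : Type u) (_ : Group H), Infinite H ∧ Countable H ∧ IsSimpleGroup H ∧ Star w H)) ∧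
    ((∀ (K : Type u) [Group K], Law w K → Group.IsSolvable K) → Tame.{u} w) := by
  refine ⟨?_, fun hV => ⟨?_, ?_⟩, fun h => tame_of_soluble h⟩
  · intro G _ _ hG h
    have hG : Star w G := hG.elim id (sharp_class.star G)
    constructor
    · obtain ⟨N, hN, h1, h2, h3⟩ := exists_mono (w := w) G hG h
      have h4 : Infinite (G ⧸ N) := infinite_quot N h1
      refine ⟨N, hN, h1, h2, h3, ?_⟩
      rcases shape_mono (G ⧸ N) (star_class.quot G N hG) h2 h3 with h5 | ⟨h5, h6 | h6⟩
      · exact Or.inl h5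
      · exact Or.inr ⟨h5, Or.inl h6⟩
      · exact Or.inr ⟨h5, Or.inr h6.1⟩
    · obtain ⟨H, iH, h1, h2, h3, h4, h5, h6, h7, h8⟩ := reduce_final (w := w) G hG h
      exact ⟨H, iH, h1, h2, h3, h4, h5, h6, h7, h8, fun hV => simple_of_tame hV h3 h4 h6 h8⟩
  · exact tame_iff hV (P := fun G _ => Sharp w G)
      ⟨fun G _ h => sharp_class.star G h, fun G _ H _ h _ _ h1 => h1 h⟩
  · exact tame_iff hV (P := fun G _ => Star w G) ⟨fun _ _ h => h, fun _ _ _ _ _ _ h _ => h⟩

end Pool.Agent.Results.MP_93ce61_al.ReductionToSimple
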