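import Mathlib
import Pool.Agent.ZZD.Main

/-!
Infinite-subset versions of a group law: a counterexample is discrete in its Zariski topology.
-/

set_option autoImplicit false

namespace Pool.Agent.Results.MP_93ce61_al.ZariskiDiscrete

open Topology Matrix Pool.Agent.ZZD

/-- A counterexample is discrete in its Zariski topology; it is neither linear nor equationally
noetherian nor topologizable. -/
theorem result {n : ℕ} (w : FreeGroup (Fin n)) (G : Type*) [Group G] (hG : InfLaw w G) :
    (∀ P : Set G, (1 : G) ∈ P → ∀ g : Fin n → G, FreeGroup.lift g w ∉ P →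
      ∃ (i : Fin n) (A : Finset (Fin n → G)),
        (∀ a ∈ A, FreeGroup.lift (Function.update a i (g i)) w ∉ P) ∧
        {x : G | ∀ a ∈ A, FreeGroup.lift (Function.update a i x) w ∉ P}.Finite) ∧
    ((∃ g : Fin n → G, FreeGroup.lift g w ≠ 1) → ∀ y : G, ∃ T : Finset (G → G),
      (∀ f ∈ T, f ∈ OneVar G ∧ f y ≠ 1) ∧ ∀ x, x ≠ y → ∃ f ∈ T, f x = 1) ∧
    (∀ (Q : Type*) [Group Q] (f : G →* Q), Function.Surjective f → Infinite Q →
      EqNoetherian Q → ∀ g : Fin n → G, f (FreeGroup.lift g w) = 1) ∧
    (∀ (F : Type*) [Field F] (d : ℕ) (ρ : G →* GL (Fin d) F), Infinite ρ.range →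
      ∀ g : Fin n → G, ρ (FreeGroup.lift g w) = 1) ∧
    (∀ [TopologicalSpace G], (∀ (a : Fin n → G) (i : Fin n),
        Continuous fun x => FreeGroup.lift (Function.update a i x) w) →
      (∀ U : Set G, IsOpen U → U.Nonempty → U.Infinite) →
      ∀ g : Fin n → G, FreeGroup.lift g w ∈ closure ({1} : Set G)) := by
  refine ⟨fun P h1 g hg => box w hG P h1 g hg, fun ⟨g, hg⟩ y => isolated' w hG g hg y,
    ?_, ?_, ?_⟩
  · intro Q _ f hf hQ hN g
    have e : f (FreeGroup.lift g w) = FreeGroup.lift (fun i => f (g i)) w := by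
      have e : FreeGroup.lift (fun i => f (g i)) = f.comp (FreeGroup.lift g) := by
        ext i
        simp
      rw [e]
      rfl
    rw [e]
    exact law_of_eqNoetherian w (hG.image f hf) hN _
  · intro F _ d ρ hinf g
    have h1 : FreeGroup.lift (fun i => ρ.rangeRestrict (g i)) w = 1 :=
      law_of_eqNoetherian w (hG.image ρ.rangeRestrict ρ.rangeRestrict_surjective)
        (eqNoetherian_linear d ρ.range.subtype ρ.range.subtype_injective) _
    have e : ρ (FreeGroup.lift g w) =
        ρ.range.subtype (FreeGroup.lift (fun i => ρ.rangeRestrict (g i)) w) := by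
      have e : ρ.range.subtype.comp (FreeGroup.lift (fun i => ρ.rangeRestrict (g i))) =
          ρ.comp (FreeGroup.lift g) := by
        ext i
        simp
      exact (DFunLike.congr_fun e w).symm
    rw [e, h1, map_one]
  · intro _ hw hτ g
    by_contra hg
    obtain ⟨i, A, hA, hfin⟩ := box w hG (closure {1}) (subset_closure rfl) g hg
    have hopen : IsOpen {x : G | ∀ a ∈ A,
        FreeGroup.lift (Function.update a i x) w ∉ closure ({1} : Set G)} := by
      have e : {x : G | ∀ a ∈ A, FreeGroup.lift (Function.update a i x) w ∉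
          closure ({1} : Set G)} = ⋂ a ∈ A, {x : G | FreeGroup.lift (Function.update a i x) w ∉
          closure ({1} : Set G)} := by
        ext x
        simp
      rw [e]
      exact isOpen_biInter_finset fun a _ => isClosed_closure.isOpen_compl.preimage (hw a i)
    exact hτ _ hopen ⟨g i, hA⟩ hfin

end Pool.Agent.Results.MP_93ce61_al.ZariskiDiscrete
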